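import Mathlib
import Pool.Agent.TH841.LS.Locd0

/-!
# Necessary conditions for a local point (jobs NO-PRA, NO-PRB of helper841; helper460)
-/

set_option autoImplicit false

namespace Pool.Agent.TH460.NO

variable {p : ℕ} [hp : Fact p.Prime]

theorem toZMod_zero {z : ℤ_[p]} (hz : ‖z‖ < 1) : PadicInt.toZMod z = 0 := by
  have : z ∈ RingHom.ker (PadicInt.toZMod : ℤ_[p] →+* ZMod p) := by
    rw [PadicInt.ker_toZMod, IsLocalRing.mem_maximalIdeal]
    exact PadicInt.mem_nonunits.2 hz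
  exact this

/-- elements near `1` are squares -/
theorem sq_one (h2 : p ≠ 2) {u : ℚ_[p]} (hu : ‖u - 1‖ < 1) : IsSquare u := by
  have h1 : ‖u‖ ≤ 1 := by
    have := Padic.nonarchimedean (u - 1) 1
    rw [sub_add_cancel, norm_one] at this
    exact this.trans (max_le hu.le le_rfl)
  set u' : ℤ_[p] := ⟨u, h1⟩ with hu'
  have h3 : ‖u' - 1‖ < 1 := by
    rw [PadicInt.norm_def]
    push_cast
    exact hu
  have h4 : PadicInt.toZMod u' = 1 := by
    have := toZMod_zero h3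
    rw [map_sub, map_one, sub_eq_zero] at this
    exact this
  obtain ⟨v, hv⟩ := Pool.Agent.TH841.LS.LOCA0.sq_of_char h2 (u := u') (by rw [h4]; simp)
  refine ⟨v, ?_⟩
  have : ((u' : ℤ_[p]) : ℚ_[p]) = ((v * v : ℤ_[p]) : ℚ_[p]) := by rw [hv]
  rw [PadicInt.coe_mul] at this
  exact this

/-- the product of two near elements is a square -/
theorem sq_near (h2 : p ≠ 2) {x y : ℚ_[p]} (h : ‖x - y‖ < ‖y‖) : IsSquare (x * y) := by
  have hy : y ≠ 0 := by
    rintro rfl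
    rw [norm_zero] at h
    exact absurd h (not_lt.2 (norm_nonneg _))
  have h1 : ‖x / y - 1‖ < 1 := by
    rw [div_sub_one hy, norm_div, div_lt_one (norm_pos_iff.2 hy)]
    exact h
  obtain ⟨v, hv⟩ := sq_one h2 h1
  refine ⟨v * y, ?_⟩
  have : x = v * v * y := by rw [← hv]; field_simp
  rw [this]
  ring

theorem ne_of_near {x y : ℚ_[p]} (h : ‖x - y‖ < ‖y‖) : x ≠ 0 := by
  rintro rfl
  rw [zero_sub, norm_neg] at h
  exact lt_irrefl _ h

theorem sq_div {x y : ℚ_[p]} (hy : y ≠ 0) (h : IsSquare (x * y)) (h' : IsSquare y) : IsSquare x := by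
  obtain ⟨a, ha⟩ := h
  obtain ⟨b, hb⟩ := h'
  have hb0 : b ≠ 0 := by
    rintro rfl
    apply hy
    rw [hb, zero_mul]
  refine ⟨a / b, ?_⟩
  field_simp
  rw [hb] at ha
  linear_combination ha

theorem jac_sq (h2 : p ≠ 2) {z : ℤ} (hz : jacobiSym z p = 1) : IsSquare (z : ℚ_[p]) := by
  have h : quadraticChar (ZMod p) (z : ZMod p) = 1 := by
    rw [← jacobiSym.legendreSym.to_jacobiSym] at hz
    exact hz
  obtain ⟨v, hv⟩ := Pool.Agent.TH841.LS.LOCD0.sqz h2 h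
  exact ⟨v, by rw [hv]; ring⟩

theorem norm_one_of {z : ℤ} (hz : ¬ (p : ℤ) ∣ z) : ‖(z : ℚ_[p])‖ = 1 := by
  refine le_antisymm (Padic.norm_int_le_one z) (not_lt.1 fun h => hz ?_)
  exact (Padic.norm_intCast_lt_one_iff (k := z)).1 h

theorem sq_jac {z : ℤ} (hz : ¬ (p : ℤ) ∣ z) (h : IsSquare (z : ℚ_[p])) : jacobiSym z p = 1 := by
  obtain ⟨v, hv⟩ := h
  have h1 : ‖v‖ ≤ 1 := by
    have := norm_one_of hz
    rw [hv, norm_mul] at this
    nlinarith [norm_nonneg v]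
  set v' : ℤ_[p] := ⟨v, h1⟩ with hv'
  have h3 : ((z : ℤ) : ℤ_[p]) = v' * v' := by
    apply Subtype.ext
    rw [PadicInt.coe_mul]
    push_cast
    exact hv
  have h4 : (z : ZMod p) = PadicInt.toZMod v' * PadicInt.toZMod v' := by
    rw [← map_mul, ← h3, map_intCast]
  rw [← jacobiSym.legendreSym.to_jacobiSym]
  have h5 : (z : ZMod p) ≠ 0 := Pool.Agent.TH841.LS.LOCD0.chi_ne hz
  rw [legendreSym.eq_one_iff p h5]
  exact ⟨_, h4⟩

theorem even_norm {y : ℚ_[p]} (hy : y ≠ 0) {m : ℤ} (h : ‖y * y‖ = (p : ℝ) ^ m) : Even m := by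
  rw [norm_mul, Padic.norm_eq_zpow_neg_valuation hy, ← zpow_add₀ (by
    exact_mod_cast hp.out.ne_zero)] at h
  have h1 : (1 : ℝ) < p := by exact_mod_cast hp.out.one_lt
  have h2 := zpow_right_injective₀ (by linarith) (ne_of_gt h1) h
  exact ⟨_, h2.symm⟩

theorem norm_p_mul {z : ℤ} (h1 : (p : ℤ) ∣ z) (h2 : ¬ (p : ℤ) ^ 2 ∣ z) :
    ‖(z : ℚ_[p])‖ = (p : ℝ) ^ (-1 : ℤ) ∧ ¬ (p : ℤ) ∣ z / p ∧ (z : ℤ) = p * (z / p) := by
  have hz : (z : ℤ) = p * (z / p) := (Int.mul_ediv_cancel' h1).symm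
  have h3 : ¬ (p : ℤ) ∣ z / p := by
    intro h
    apply h2
    rw [hz, sq]
    exact mul_dvd_mul_left _ h
  refine ⟨?_, h3, hz⟩
  rw [hz]
  push_cast
  rw [norm_mul, Padic.norm_p]
  have : ‖((z / p : ℤ) : ℚ_[p])‖ = 1 := norm_one_of h3
  rw [this, mul_one, zpow_neg_one]

/-- the point, its class, and the square classes near and far from `0` -/
theorem far (h2 : p ≠ 2) {A B X Y : ℚ_[p]} (hA : ‖A‖ < ‖X‖) (hB : ‖B‖ < ‖X‖)
    (h : Y ^ 2 = X * (X - A) * (X - B)) : IsSquare X := by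
  have e1 : ‖(X - A) - X‖ < ‖X‖ := by rw [sub_sub_cancel_left, norm_neg]; exact hA
  have e2 : ‖(X - B) - X‖ < ‖X‖ := by rw [sub_sub_cancel_left, norm_neg]; exact hB
  have hX : X ≠ 0 := norm_pos_iff.1 (lt_of_le_of_lt (norm_nonneg _) hA)
  have s : IsSquare (((X - A) * X) * ((X - B) * X)) := (sq_near h2 e1).mul (sq_near h2 e2)
  have hY : Y ^ 2 ≠ 0 := by
    rw [h]
    exact mul_ne_zero (mul_ne_zero hX (ne_of_near e1)) (ne_of_near e2)
  refine sq_div hY ?_ ⟨Y, sq Y⟩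
  rw [h]
  have : X * (X * (X - A) * (X - B)) = ((X - A) * X) * ((X - B) * X) := by ring
  rw [this]
  exact s

theorem near (h2 : p ≠ 2) {A B X Y : ℚ_[p]} (hA : ‖X‖ < ‖A‖) (hB : ‖X‖ < ‖B‖) (hX : X ≠ 0)
    (hAB : IsSquare (A * B)) (h : Y ^ 2 = X * (X - A) * (X - B)) : IsSquare X := by
  have e1 : ‖(X - A) - (-A)‖ < ‖-A‖ := by rw [sub_neg_eq_add, sub_add_cancel, norm_neg]; exact hA
  have e2 : ‖(X - B) - (-B)‖ < ‖-B‖ := by rw [sub_neg_eq_add, sub_add_cancel, norm_neg]; exact hB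
  have hA0 : A ≠ 0 := norm_pos_iff.1 (lt_of_le_of_lt (norm_nonneg _) hA)
  have hB0 : B ≠ 0 := norm_pos_iff.1 (lt_of_le_of_lt (norm_nonneg _) hB)
  have s : IsSquare (((X - A) * (-A)) * ((X - B) * (-B))) := (sq_near h2 e1).mul (sq_near h2 e2)
  have s2 : IsSquare ((X - A) * (X - B)) := by
    refine sq_div (mul_ne_zero hA0 hB0) ?_ hAB
    have : (X - A) * (X - B) * (A * B) = ((X - A) * (-A)) * ((X - B) * (-B)) := by ring
    rw [this]
    exact s
  have hne : (X - A) * (X - B) ≠ 0 := mul_ne_zero (ne_of_near e1) (ne_of_near e2)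
  refine sq_div hne ?_ s2
  have : X * ((X - A) * (X - B)) = Y * Y := by rw [← sq, h]; ring
  rw [this]
  exact ⟨Y, rfl⟩

theorem class_d {X d r : ℚ_[p]} (hX : X ≠ 0) (h : X = d * r ^ 2) (z : ℚ_[p])
    (hs : IsSquare (X * z)) : IsSquare (d * z) := by
  have hr : r ≠ 0 := by
    rintro rfl
    apply hX
    rw [h]; ring
  obtain ⟨a, ha⟩ := hs
  refine ⟨a / r, ?_⟩
  rw [h] at ha
  field_simp
  linear_combination ha

theorem pra0 (p : ℕ) [Fact p.Prime] (A B d : ℤ) (h2 : p ≠ 2) (hA : ¬ (p : ℤ) ∣ A)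
    (hAB : (p : ℤ) ∣ A - B) (hj : jacobiSym A p = 1) (hd : ¬ (p : ℤ) ∣ d)
    (h : ∃ X Y r : ℚ_[p], X ≠ 0 ∧ Y ^ 2 = X * (X - (A : ℚ_[p])) * (X - (B : ℚ_[p])) ∧
      X = (d : ℚ_[p]) * r ^ 2) : jacobiSym d p = 1 := by
  obtain ⟨X, Y, r, hX, hY, hr⟩ := h
  have hB : ¬ (p : ℤ) ∣ B := by
    intro h
    apply hA
    have := dvd_add hAB h
    rwa [sub_add_cancel] at this
  have nA := norm_one_of hA
  have nB := norm_one_of hB
  have nAB : ‖(A : ℚ_[p]) - B‖ < 1 := by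
    have := (Padic.norm_intCast_lt_one_iff (p := p) (k := A - B)).2 hAB
    push_cast at this
    exact this
  have key : IsSquare X := by
    rcases lt_trichotomy ‖X‖ 1 with hlt | heq | hgt
    · refine near h2 (by rw [nA]; exact hlt) (by rw [nB]; exact hlt) hX ?_ hY
      exact sq_near h2 (by rw [nB]; exact nAB)
    · by_cases hc : ‖X - (A : ℚ_[p])‖ < 1
      · have s := sq_near h2 (x := X) (y := (A : ℚ_[p])) (by rw [nA]; exact hc)
        refine sq_div (norm_pos_iff.1 (by rw [nA]; exact one_pos)) s (jac_sq h2 hj)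
      · have hc' : 1 ≤ ‖X - (A : ℚ_[p])‖ := not_lt.1 hc
        have e : ‖(X - (B : ℚ_[p])) - (X - (A : ℚ_[p]))‖ < ‖X - (A : ℚ_[p])‖ := by
          rw [sub_sub_sub_cancel_left]
          exact lt_of_lt_of_le nAB hc'
        have s := sq_near h2 e
        have hne : (X - (B : ℚ_[p])) * (X - (A : ℚ_[p])) ≠ 0 :=
          mul_ne_zero (ne_of_near e) (norm_pos_iff.1 (lt_of_lt_of_le one_pos hc'))
        refine sq_div hne ?_ s
        have : X * ((X - (B : ℚ_[p])) * (X - (A : ℚ_[p]))) = Y * Y := by rw [← sq, hY]; ring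
        rw [this]
        exact ⟨Y, rfl⟩
    · exact far h2 (by rw [nA]; exact hgt) (by rw [nB]; exact hgt) hY
  have := class_d hX hr 1 (by rwa [mul_one])
  rw [mul_one] at this
  exact sq_jac hd this

theorem prb0 (p : ℕ) [Fact p.Prime] (A B d : ℤ) (h2 : p ≠ 2) (hA : (p : ℤ) ∣ A)
    (hB : (p : ℤ) ∣ B) (hA2 : ¬ (p : ℤ) ^ 2 ∣ A) (hB2 : ¬ (p : ℤ) ^ 2 ∣ B)
    (hj : jacobiSym ((A / p) * (B / p)) p = 1) (hd : ¬ (p : ℤ) ^ 2 ∣ d)
    (h : ∃ X Y r : ℚ_[p], X ≠ 0 ∧ Y ^ 2 = X * (X - (A : ℚ_[p])) * (X - (B : ℚ_[p])) ∧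
      X = (d : ℚ_[p]) * r ^ 2) :
    (if (p : ℤ) ∣ d then jacobiSym ((A / p) * (d / p)) p else jacobiSym d p) = 1 := by
  obtain ⟨X, Y, r, hX, hY, hr⟩ := h
  obtain ⟨nA, uA, eA⟩ := norm_p_mul hA hA2
  obtain ⟨nB, uB, eB⟩ := norm_p_mul hB hB2
  have hp0 : (0 : ℝ) < p := by exact_mod_cast (Fact.out : p.Prime).pos
  have hpos : (0 : ℝ) < (p : ℝ) ^ (-1 : ℤ) := zpow_pos hp0 _
  have hA0 : (A : ℚ_[p]) ≠ 0 := norm_pos_iff.1 (by rw [nA]; exact hpos)
  have hB0 : (B : ℚ_[p]) ≠ 0 := norm_pos_iff.1 (by rw [nB]; exact hpos)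
  have hd0 : (d : ℚ_[p]) ≠ 0 := by
    intro h
    apply hX
    rw [hr, h, zero_mul]
  have sAB : IsSquare ((A : ℚ_[p]) * B) := by
    obtain ⟨v, hv⟩ := jac_sq h2 hj
    refine ⟨p * v, ?_⟩
    have e1 : (A : ℚ_[p]) = p * ((A / p : ℤ) : ℚ_[p]) := by exact_mod_cast congrArg (fun z : ℤ => (z : ℚ_[p])) eA
    have e2 : (B : ℚ_[p]) = p * ((B / p : ℤ) : ℚ_[p]) := by exact_mod_cast congrArg (fun z : ℤ => (z : ℚ_[p])) eB
    rw [e1, e2]
    push_cast at hv ⊢
    linear_combination ((p : ℚ_[p]) * p) * hv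
  -- the case of a square
  have caseS : IsSquare X → (if (p : ℤ) ∣ d then jacobiSym ((A / p) * (d / p)) p
      else jacobiSym d p) = 1 := by
    intro hs
    have hsd := class_d hX hr 1 (by rwa [mul_one])
    rw [mul_one] at hsd
    by_cases hpd : (p : ℤ) ∣ d
    · exfalso
      obtain ⟨nd, -, -⟩ := norm_p_mul hpd hd
      obtain ⟨v, hv⟩ := hsd
      have hv0 : v ≠ 0 := by
        rintro rfl
        apply hd0
        rw [hv, zero_mul]
      rw [hv] at nd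
      have := even_norm hv0 nd
      exact absurd this (by decide)
    · rw [if_neg hpd]
      exact sq_jac hpd hsd
  -- the case of the class of `A`
  have caseA : IsSquare (X * A) → (if (p : ℤ) ∣ d then jacobiSym ((A / p) * (d / p)) p
      else jacobiSym d p) = 1 := by
    intro hs
    have hsd := class_d hX hr (A : ℚ_[p]) hs
    obtain ⟨v, hv⟩ := hsd
    have hv0 : v ≠ 0 := by
      rintro rfl
      rw [zero_mul] at hv
      exact (mul_ne_zero hd0 hA0) hv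
    by_cases hpd : (p : ℤ) ∣ d
    · rw [if_pos hpd]
      obtain ⟨nd, ud, ed⟩ := norm_p_mul hpd hd
      apply sq_jac
      · intro hdvd
        rcases (Nat.prime_iff_prime_int.1 (Fact.out : p.Prime)).dvd_or_dvd hdvd with h | h
        · exact uA h
        · exact ud h
      · have e1 : (A : ℚ_[p]) = p * ((A / p : ℤ) : ℚ_[p]) := by exact_mod_cast congrArg (fun z : ℤ => (z : ℚ_[p])) eA
        have e2 : (d : ℚ_[p]) = p * ((d / p : ℤ) : ℚ_[p]) := by exact_mod_cast congrArg (fun z : ℤ => (z : ℚ_[p])) ed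
        have hpp : (p : ℚ_[p]) ≠ 0 := by exact_mod_cast (Fact.out : p.Prime).ne_zero
        refine ⟨v / p, ?_⟩
        rw [e1, e2] at hv
        push_cast
        field_simp
        linear_combination hv
    · exfalso
      have nd := norm_one_of hpd
      have : ‖v * v‖ = (p : ℝ) ^ (-1 : ℤ) := by
        rw [← hv, norm_mul, nd, nA, one_mul]
      exact absurd (even_norm hv0 this) (by decide)
  rcases lt_trichotomy ‖X‖ ((p : ℝ) ^ (-1 : ℤ)) with hlt | heq | hgt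
  · exact caseS (near h2 (by rw [nA]; exact hlt) (by rw [nB]; exact hlt) hX sAB hY)
  · by_cases hcA : ‖X - (A : ℚ_[p])‖ < (p : ℝ) ^ (-1 : ℤ)
    · exact caseA (sq_near h2 (by rw [nA]; exact hcA))
    · by_cases hcB : ‖X - (B : ℚ_[p])‖ < (p : ℝ) ^ (-1 : ℤ)
      · apply caseA
        have s1 : IsSquare (X * B) := sq_near h2 (by rw [nB]; exact hcB)
        have s2 : IsSquare ((X * A) * ((B : ℚ_[p]) * B)) := by
          have := s1.mul sAB
          have e : X * B * ((A : ℚ_[p]) * B) = (X * A) * ((B : ℚ_[p]) * B) := by ring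
          rwa [e] at this
        exact sq_div (mul_ne_zero hB0 hB0) s2 ⟨_, rfl⟩
      · exfalso
        have uA' : ‖X - (A : ℚ_[p])‖ = (p : ℝ) ^ (-1 : ℤ) := by
          refine le_antisymm ?_ (not_lt.1 hcA)
          have := Padic.nonarchimedean X (-(A : ℚ_[p]))
          rw [norm_neg, nA, heq, max_self, ← sub_eq_add_neg] at this
          exact this
        have uB' : ‖X - (B : ℚ_[p])‖ = (p : ℝ) ^ (-1 : ℤ) := by
          refine le_antisymm ?_ (not_lt.1 hcB)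
          have := Padic.nonarchimedean X (-(B : ℚ_[p]))
          rw [norm_neg, nB, heq, max_self, ← sub_eq_add_neg] at this
          exact this
        have hY0 : Y ≠ 0 := by
          rintro rfl
          have : ‖(0 : ℚ_[p]) ^ 2‖ = ‖X * (X - (A : ℚ_[p])) * (X - (B : ℚ_[p]))‖ := by rw [hY]
          rw [norm_mul, norm_mul, heq, uA', uB'] at this
          have h3 : 0 < (p : ℝ) ^ (-1 : ℤ) * (p : ℝ) ^ (-1 : ℤ) * (p : ℝ) ^ (-1 : ℤ) := by positivity
          rw [← this] at h3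
          simp at h3
        have : ‖Y * Y‖ = (p : ℝ) ^ (-3 : ℤ) := by
          rw [← sq, hY, norm_mul, norm_mul, heq, uA', uB', ← zpow_add₀ hp0.ne', ← zpow_add₀ hp0.ne']
          norm_num
        exact absurd (even_norm hY0 this) (by decide)
  · exact caseS (far h2 (by rw [nA]; exact hgt) (by rw [nB]; exact hgt) hY)

end Pool.Agent.TH460.NO
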